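import Mathlib

/-!
# A non-abelian profinite CSA-group which is not pro-p for any prime p

The group consists of the elements `a + b i + c j + d k` of norm one in the order
`ℤ₅⟨1, i, j, k⟩` of the quaternion division algebra over `ℚ₅` with `i² = -3`, `j² = 5`, `k = i j`,
for which `a` is congruent to `1` or `2` modulo `5`.
-/

set_option autoImplicit false

namespace Pool.Agent.Results.MP_b9311c_al.QuaternionExample

noncomputable section

open Topology

universe u

/-- `M` is a maximal abelian subgroup of `G`. -/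
def IsMaximalAbelian {G : Type u} [Group G] (M : Subgroup G) : Prop :=
  (∀ x ∈ M, ∀ y ∈ M, x * y = y * x) ∧
    ∀ M' : Subgroup G, (∀ x ∈ M', ∀ y ∈ M', x * y = y * x) → M ≤ M' → M' = M

/-- `M` is malnormal: it meets `g M g⁻¹` trivially for every `g` outside `M`. -/
def IsMalnormal {G : Type u} [Group G] (M : Subgroup G) : Prop :=
  ∀ g : G, g ∉ M → ∀ x ∈ M, g * x * g⁻¹ ∈ M → x = 1

/-- `G` is a CSA-group: all maximal abelian subgroups are malnormal. -/
def IsCSA (G : Type u) [Group G] : Prop :=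
  ∀ M : Subgroup G, IsMaximalAbelian M → IsMalnormal M

/-- The profinite group `G` is pro-`p`: all open normal subgroups have `p`-power index. -/
def IsProP (p : ℕ) (G : Type u) [Group G] [TopologicalSpace G] : Prop :=
  ∀ U : Subgroup G, U.Normal → IsOpen (U : Set G) → ∃ k : ℕ, U.index = p ^ k

instance fact5 : Fact (Nat.Prime 5) := ⟨by norm_num⟩

/-- reduction modulo 5 -/
abbrev red : ℤ_[5] →+* ZMod 5 := PadicInt.toZMod

/-- The elements `a + b i + c j + d k` of norm one with `a` congruent to `1` or `2` modulo `5`. -/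
@[ext] structure Q where
  /-- real part -/
  a : ℤ_[5]
  /-- first coordinate -/
  b : ℤ_[5]
  /-- second coordinate -/
  c : ℤ_[5]
  /-- third coordinate -/
  d : ℤ_[5]
  nm : a ^ 2 + 3 * b ^ 2 - 5 * c ^ 2 - 15 * d ^ 2 = 1
  cl : red a = 1 ∨ red a = 2

theorem five_zero : (5 : ZMod 5) = 0 := rfl

theorem fifteen_zero : (15 : ZMod 5) = 0 := rfl

theorem red_nm (x : Q) : red x.a ^ 2 + 3 * red x.b ^ 2 = 1 := by
  have := congrArg red x.nm
  simp only [map_add, map_sub, map_mul, map_pow, map_one, map_ofNat, five_zero,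
    fifteen_zero] at this
  linear_combination this

theorem cl_mul : ∀ a b a' b' : ZMod 5, a ^ 2 + 3 * b ^ 2 = 1 → a' ^ 2 + 3 * b' ^ 2 = 1 →
    (a = 1 ∨ a = 2) → (a' = 1 ∨ a' = 2) → (a * a' - 3 * b * b' = 1 ∨ a * a' - 3 * b * b' = 2) := by
  have key : ∀ a b : ZMod 5, a ^ 2 + 3 * b ^ 2 = 1 → (a = 1 ∨ a = 2) →
      (a = 1 ∧ b = 0) ∨ (a = 2 ∧ b = 2) ∨ (a = 2 ∧ b = 3) := by decide +kernel
  intro a b a' b' h h' k k'
  rcases key a b h k with ⟨rfl, rfl⟩ | ⟨rfl, rfl⟩ | ⟨rfl, rfl⟩ <;>
  rcases key a' b' h' k' with ⟨rfl, rfl⟩ | ⟨rfl, rfl⟩ | ⟨rfl, rfl⟩ <;> decide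

instance : Mul Q where
  mul x y :=
    { a := x.a * y.a - 3 * x.b * y.b + 5 * x.c * y.c + 15 * x.d * y.d
      b := x.a * y.b + x.b * y.a - 5 * x.c * y.d + 5 * x.d * y.c
      c := x.a * y.c + x.c * y.a - 3 * x.b * y.d + 3 * x.d * y.b
      d := x.a * y.d + x.d * y.a + x.b * y.c - x.c * y.b
      nm := by
        have h1 := x.nm
        have h2 := y.nm
        linear_combination (y.a ^ 2 + 3 * y.b ^ 2 - 5 * y.c ^ 2 - 15 * y.d ^ 2) * h1 + h2
      cl := by
        have h := cl_mul _ _ _ _ (red_nm x) (red_nm y) x.cl y.cl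
        simp only [map_add, map_sub, map_mul, map_ofNat, five_zero, fifteen_zero]
        simpa using h }

theorem mul_a (x y : Q) :
    (x * y).a = x.a * y.a - 3 * x.b * y.b + 5 * x.c * y.c + 15 * x.d * y.d := rfl
theorem mul_b (x y : Q) :
    (x * y).b = x.a * y.b + x.b * y.a - 5 * x.c * y.d + 5 * x.d * y.c := rfl
theorem mul_c (x y : Q) :
    (x * y).c = x.a * y.c + x.c * y.a - 3 * x.b * y.d + 3 * x.d * y.b := rfl
theorem mul_d (x y : Q) :
    (x * y).d = x.a * y.d + x.d * y.a + x.b * y.c - x.c * y.b := rfl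

instance : One Q where
  one := { a := 1, b := 0, c := 0, d := 0, nm := by ring, cl := Or.inl (map_one _) }

theorem one_a : (1 : Q).a = 1 := rfl
theorem one_b : (1 : Q).b = 0 := rfl
theorem one_c : (1 : Q).c = 0 := rfl
theorem one_d : (1 : Q).d = 0 := rfl

instance : Inv Q where
  inv x := { a := x.a, b := -x.b, c := -x.c, d := -x.d, nm := by linear_combination x.nm,
             cl := x.cl }

theorem inv_a (x : Q) : (x⁻¹).a = x.a := rfl
theorem inv_b (x : Q) : (x⁻¹).b = -x.b := rfl
theorem inv_c (x : Q) : (x⁻¹).c = -x.c := rfl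
theorem inv_d (x : Q) : (x⁻¹).d = -x.d := rfl

instance : Group Q where
  mul_assoc x y z := by
    apply Q.ext
    · simp only [mul_a, mul_b, mul_c, mul_d]; ring
    · simp only [mul_a, mul_b, mul_c, mul_d]; ring
    · simp only [mul_a, mul_b, mul_c, mul_d]; ring
    · simp only [mul_a, mul_b, mul_c, mul_d]; ring
  one_mul x := by
    apply Q.ext
    · simp only [mul_a, one_a, one_b, one_c, one_d]; ring
    · simp only [mul_b, one_a, one_b, one_c, one_d]; ring
    · simp only [mul_c, one_a, one_b, one_c, one_d]; ring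
    · simp only [mul_d, one_a, one_b, one_c, one_d]; ring
  mul_one x := by
    apply Q.ext
    · simp only [mul_a, one_a, one_b, one_c, one_d]; ring
    · simp only [mul_b, one_a, one_b, one_c, one_d]; ring
    · simp only [mul_c, one_a, one_b, one_c, one_d]; ring
    · simp only [mul_d, one_a, one_b, one_c, one_d]; ring
  inv_mul_cancel x := by
    apply Q.ext
    · simp only [mul_a, inv_a, inv_b, inv_c, inv_d, one_a]; linear_combination x.nm
    · simp only [mul_b, inv_a, inv_b, inv_c, inv_d, one_b]; ring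
    · simp only [mul_c, inv_a, inv_b, inv_c, inv_d, one_c]; ring
    · simp only [mul_d, inv_a, inv_b, inv_c, inv_d, one_d]; ring

/-! ### The topology -/

/-- the coordinates -/
def coord (x : Q) : Fin 4 → ℤ_[5] := ![x.a, x.b, x.c, x.d]

theorem coord_inj : Function.Injective coord := by
  intro x y h
  exact Q.ext (congrFun h 0) (congrFun h 1) (congrFun h 2) (congrFun h 3)

instance : TopologicalSpace Q := TopologicalSpace.induced coord inferInstance

theorem emb : IsEmbedding coord := ⟨⟨rfl⟩, coord_inj⟩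

theorem cont_a : Continuous Q.a := (continuous_apply 0).comp emb.continuous
theorem cont_b : Continuous Q.b := (continuous_apply 1).comp emb.continuous
theorem cont_c : Continuous Q.c := (continuous_apply 2).comp emb.continuous
theorem cont_d : Continuous Q.d := (continuous_apply 3).comp emb.continuous

theorem cont_of {X : Type u} [TopologicalSpace X] {f : X → Q} (h1 : Continuous fun x => (f x).a)
    (h2 : Continuous fun x => (f x).b) (h3 : Continuous fun x => (f x).c)
    (h4 : Continuous fun x => (f x).d) : Continuous f := by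
  rw [emb.continuous_iff]
  refine continuous_pi fun i => ?_
  fin_cases i
  · exact h1
  · exact h2
  · exact h3
  · exact h4

instance : IsTopologicalGroup Q where
  continuous_mul := by
    have a1 : Continuous fun x : Q × Q => x.1.a := cont_a.comp continuous_fst
    have b1 : Continuous fun x : Q × Q => x.1.b := cont_b.comp continuous_fst
    have c1 : Continuous fun x : Q × Q => x.1.c := cont_c.comp continuous_fst
    have d1 : Continuous fun x : Q × Q => x.1.d := cont_d.comp continuous_fst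
    have a2 : Continuous fun x : Q × Q => x.2.a := cont_a.comp continuous_snd
    have b2 : Continuous fun x : Q × Q => x.2.b := cont_b.comp continuous_snd
    have c2 : Continuous fun x : Q × Q => x.2.c := cont_c.comp continuous_snd
    have d2 : Continuous fun x : Q × Q => x.2.d := cont_d.comp continuous_snd
    refine cont_of ?_ ?_ ?_ ?_
    · simp only [mul_a]; fun_prop
    · simp only [mul_b]; fun_prop
    · simp only [mul_c]; fun_prop
    · simp only [mul_d]; fun_prop
  continuous_inv := cont_of cont_a cont_b.neg cont_c.neg cont_d.neg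

theorem isOpen_red (r : ZMod 5) : IsOpen {z : ℤ_[5] | red z = r} := by
  rw [Metric.isOpen_iff]
  intro z hz
  refine ⟨1, one_pos, fun y hy => ?_⟩
  rw [Metric.mem_ball, dist_eq_norm, PadicInt.norm_lt_one_iff_dvd] at hy
  obtain ⟨w, hw⟩ := hy
  have h1 := congrArg red hw
  rw [map_sub, map_mul] at h1
  have h2 : red ((5 : ℕ) : ℤ_[5]) = 0 := by rw [map_natCast]; rfl
  rw [h2, zero_mul, sub_eq_zero] at h1
  exact h1.trans hz

theorem isClosed_red (r : ZMod 5) : IsClosed {z : ℤ_[5] | red z = r} := by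
  constructor
  have : {z : ℤ_[5] | red z = r}ᶜ = ⋃ s : {s : ZMod 5 // s ≠ r}, {z : ℤ_[5] | red z = s} := by
    ext z
    simp only [Set.mem_compl_iff, Set.mem_ofPred_eq, Set.mem_iUnion, Subtype.exists]
    constructor
    · intro h
      exact ⟨red z, h, rfl⟩
    · rintro ⟨s, hs, h⟩ hz
      exact hs (h.symm.trans hz)
  rw [this]
  exact isOpen_iUnion fun s => isOpen_red s

theorem range_coord : Set.range coord =
    {v : Fin 4 → ℤ_[5] | v 0 ^ 2 + 3 * v 1 ^ 2 - 5 * v 2 ^ 2 - 15 * v 3 ^ 2 = 1} ∩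
      ((fun v => v 0) ⁻¹' {z | red z = 1} ∪ (fun v => v 0) ⁻¹' {z | red z = 2}) := by
  ext v
  constructor
  · rintro ⟨x, rfl⟩
    exact ⟨x.nm, x.cl⟩
  · rintro ⟨h1, h2⟩
    refine ⟨⟨v 0, v 1, v 2, v 3, h1, h2⟩, ?_⟩
    funext i
    fin_cases i <;> rfl

theorem closedEmb : IsClosedEmbedding coord := by
  refine ⟨emb, ?_⟩
  rw [range_coord]
  refine IsClosed.inter (isClosed_eq (by fun_prop) continuous_const) (IsClosed.union ?_ ?_)
  · exact (isClosed_red 1).preimage (continuous_apply 0)
  · exact (isClosed_red 2).preimage (continuous_apply 0)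

instance : CompactSpace Q := closedEmb.compactSpace

instance : T2Space Q := emb.t2Space

instance : TotallyDisconnectedSpace Q :=
  ⟨emb.isTotallyDisconnected (isTotallyDisconnected_of_totallyDisconnectedSpace _)⟩

/-! ### The CSA-property -/

theorem two_ne : (2 : ℤ_[5]) ≠ 0 := by exact_mod_cast (two_ne_zero : (2 : ℕ) ≠ 0)

/-- Anisotropy. -/
theorem aniso_aux : ∀ (n : ℕ) (b c d : ℤ_[5]), 3 * b ^ 2 = 5 * c ^ 2 + 15 * d ^ 2 →
    (5 : ℤ_[5]) ^ n ∣ b ∧ (5 : ℤ_[5]) ^ n ∣ c ∧ (5 : ℤ_[5]) ^ n ∣ d := by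
  have key : ∀ z : ℤ_[5], red z = 0 → ∃ w, z = 5 * w := by
    intro z hz
    have h1 : z ∈ RingHom.ker (PadicInt.toZMod : ℤ_[5] →+* ZMod 5) := hz
    rw [PadicInt.ker_toZMod, PadicInt.maximalIdeal_eq_span_p, Ideal.mem_span_singleton] at h1
    obtain ⟨w, hw⟩ := h1
    exact ⟨w, by rw [hw]; norm_num⟩
  have h5 : (5 : ℤ_[5]) ≠ 0 := by exact_mod_cast (by norm_num : (5 : ℕ) ≠ 0)
  intro n
  induction n with
  | zero => intro b c d _; simp
  | succ n ih =>
    intro b c d h
    have hb : red b = 0 := by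
      have h1 := congrArg red h
      simp only [map_add, map_mul, map_pow, map_ofNat, five_zero, fifteen_zero] at h1
      have : ∀ b : ZMod 5, ∀ c d : ZMod 5, 3 * b ^ 2 = 0 * c ^ 2 + 0 * d ^ 2 → b = 0 := by
        decide +kernel
      exact this _ _ _ h1
    obtain ⟨b', rfl⟩ := key b hb
    have h2 : 15 * b' ^ 2 = c ^ 2 + 3 * d ^ 2 := by
      apply mul_left_cancel₀ h5
      linear_combination h
    have hcd : red c = 0 ∧ red d = 0 := by
      have h1 := congrArg red h2
      simp only [map_add, map_mul, map_pow, map_ofNat, fifteen_zero] at h1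
      have : ∀ b c d : ZMod 5, 0 * b ^ 2 = c ^ 2 + 3 * d ^ 2 → c = 0 ∧ d = 0 := by
        decide +kernel
      exact this _ _ _ h1
    obtain ⟨c', rfl⟩ := key c hcd.1
    obtain ⟨d', rfl⟩ := key d hcd.2
    have h3 : 3 * b' ^ 2 = 5 * c' ^ 2 + 15 * d' ^ 2 := by
      apply mul_left_cancel₀ h5
      linear_combination h2
    obtain ⟨i1, i2, i3⟩ := ih b' c' d' h3
    rw [pow_succ']
    exact ⟨mul_dvd_mul_left _ i1, mul_dvd_mul_left _ i2, mul_dvd_mul_left _ i3⟩

theorem eq_zero_of_dvd {z : ℤ_[5]} (h : ∀ n : ℕ, (5 : ℤ_[5]) ^ n ∣ z) : z = 0 := by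
  by_contra hz
  have h1 := (PadicInt.mem_span_pow_iff_le_valuation z hz (z.valuation + 1)).1 (by
    rw [Ideal.mem_span_singleton]
    have := h (z.valuation + 1)
    exact_mod_cast this)
  omega

theorem aniso {b c d : ℤ_[5]} (h : 3 * b ^ 2 = 5 * c ^ 2 + 15 * d ^ 2) :
    b = 0 ∧ c = 0 ∧ d = 0 :=
  ⟨eq_zero_of_dvd fun n => (aniso_aux n b c d h).1, eq_zero_of_dvd fun n => (aniso_aux n b c d h).2.1,
    eq_zero_of_dvd fun n => (aniso_aux n b c d h).2.2⟩

theorem comm_iff (x y : Q) : x * y = y * x ↔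
    x.b * y.c = y.b * x.c ∧ x.b * y.d = y.b * x.d ∧ x.c * y.d = y.c * x.d := by
  have h3 : (3 : ℤ_[5]) ≠ 0 := by exact_mod_cast (by norm_num : (3 : ℕ) ≠ 0)
  have h5 : (5 : ℤ_[5]) ≠ 0 := by exact_mod_cast (by norm_num : (5 : ℕ) ≠ 0)
  constructor
  · intro h
    have hb := congrArg Q.b h
    have hc := congrArg Q.c h
    have hd := congrArg Q.d h
    rw [mul_b, mul_b] at hb
    rw [mul_c, mul_c] at hc
    rw [mul_d, mul_d] at hd
    refine ⟨?_, ?_, ?_⟩
    · apply mul_left_cancel₀ two_ne; linear_combination hd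
    · apply mul_left_cancel₀ h3; apply mul_left_cancel₀ two_ne; linear_combination -hc
    · apply mul_left_cancel₀ h5; apply mul_left_cancel₀ two_ne; linear_combination -hb
  · rintro ⟨h1, h2, h3⟩
    apply Q.ext
    · simp only [mul_a]; ring
    · simp only [mul_b]; linear_combination -10 * h3
    · simp only [mul_c]; linear_combination -6 * h2
    · simp only [mul_d]; linear_combination 2 * h1

/-- two vectors proportional to a nonzero one are proportional -/
theorem cross {b c d b' c' d' b₂ c₂ d₂ : ℤ_[5]} (hv : b ≠ 0 ∨ c ≠ 0 ∨ d ≠ 0)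
    (h1 : b * c' = b' * c) (h2 : b * d' = b' * d) (h3 : c * d' = c' * d)
    (k1 : b * c₂ = b₂ * c) (k2 : b * d₂ = b₂ * d) (k3 : c * d₂ = c₂ * d) :
    b' * c₂ = b₂ * c' ∧ b' * d₂ = b₂ * d' ∧ c' * d₂ = c₂ * d' := by
  rcases hv with hb | hc | hd
  · have e1 : b' * c₂ = b₂ * c' := by
      apply mul_left_cancel₀ hb
      linear_combination b' * k1 - b₂ * h1
    have e2 : b' * d₂ = b₂ * d' := by
      apply mul_left_cancel₀ hb
      linear_combination b' * k2 - b₂ * h2
    refine ⟨e1, e2, ?_⟩
    apply mul_left_cancel₀ hb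
    linear_combination d₂ * h1 - d' * k1 + c * e2
  · have e1 : b' * c₂ = b₂ * c' := by
      apply mul_left_cancel₀ hc
      linear_combination c' * k1 - c₂ * h1
    have e3 : c' * d₂ = c₂ * d' := by
      apply mul_left_cancel₀ hc
      linear_combination c' * k3 - c₂ * h3
    refine ⟨e1, ?_, e3⟩
    apply mul_left_cancel₀ hc
    linear_combination d' * k1 - d₂ * h1 + b * e3
  · have e2 : b' * d₂ = b₂ * d' := by
      apply mul_left_cancel₀ hd
      linear_combination d' * k2 - d₂ * h2
    have e3 : c' * d₂ = c₂ * d' := by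
      apply mul_left_cancel₀ hd
      linear_combination d' * k3 - d₂ * h3
    refine ⟨?_, e2, e3⟩
    apply mul_left_cancel₀ hd
    linear_combination c' * k2 - c₂ * h2 - b * e3

theorem nonzero {x : Q} (hx : x ≠ 1) : x.b ≠ 0 ∨ x.c ≠ 0 ∨ x.d ≠ 0 := by
  by_contra hc
  push Not at hc
  obtain ⟨hb, hc, hd⟩ := hc
  have h1 : (x.a - 1) * (x.a + 1) = 0 := by
    have := x.nm
    rw [hb, hc, hd] at this
    linear_combination this
  rcases mul_eq_zero.1 h1 with h2 | h2
  · exact hx (Q.ext (by rw [one_a]; linear_combination h2) hb hc hd)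
  · have h3 : x.a = -1 := by linear_combination h2
    have h4 := x.cl
    rw [h3, map_neg, map_one] at h4
    revert h4
    decide

/-- Centralizers of nontrivial elements are abelian. -/
theorem isCA {x : Q} (hx : x ≠ 1) {y z : Q} (hy : x * y = y * x) (hz : x * z = z * x) :
    y * z = z * y := by
  rw [comm_iff] at hy hz ⊢
  exact cross (nonzero hx) hy.1 hy.2.1 hy.2.2 hz.1 hz.2.1 hz.2.2

/-- If a nontrivial element commutes with its conjugate by `g` then it commutes with `g`. -/
theorem conj_comm {x g : Q} (hx : x ≠ 1) (h : x * (g * x * g⁻¹) = g * x * g⁻¹ * x) :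
    x * g = g * x := by
  obtain ⟨y, hy⟩ : ∃ y, y = g * x * g⁻¹ := ⟨_, rfl⟩
  rw [← hy] at h
  have hyg : y * g = g * x := by rw [hy, inv_mul_cancel_right]
  -- same real part
  have ha : y.a = x.a := by
    rw [hy]
    simp only [mul_a, mul_b, mul_c, mul_d, inv_a, inv_b, inv_c, inv_d]
    linear_combination x.a * g.nm
  have hn : 3 * y.b ^ 2 - 5 * y.c ^ 2 - 15 * y.d ^ 2 = 3 * x.b ^ 2 - 5 * x.c ^ 2 - 15 * x.d ^ 2 := by
    have h1 := x.nm
    have h2 := y.nm
    rw [ha] at h2
    linear_combination h2 - h1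
  have hq : 3 * x.b ^ 2 - 5 * x.c ^ 2 - 15 * x.d ^ 2 ≠ 0 := by
    intro h0
    obtain ⟨h1, h2, h3⟩ := aniso (b := x.b) (c := x.c) (d := x.d) (by linear_combination h0)
    rcases nonzero hx with h | h | h
    · exact h h1
    · exact h h2
    · exact h h3
  obtain ⟨c1, c2, c3⟩ := (comm_iff x y).1 h
  -- the squares of the coordinates agree
  have sb : x.b ^ 2 = y.b ^ 2 := by
    apply mul_left_cancel₀ hq
    linear_combination x.b ^ 2 * hn * (-1) + 5 * (x.b * y.c + y.b * x.c) * c1 * (-1) +
      15 * (x.b * y.d + y.b * x.d) * c2 * (-1)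
  have sc : x.c ^ 2 = y.c ^ 2 := by
    apply mul_left_cancel₀ hq
    linear_combination x.c ^ 2 * hn * (-1) + 3 * (x.b * y.c + y.b * x.c) * c1 * (-1) +
      15 * (x.c * y.d + y.c * x.d) * c3 * (-1)
  have sd : x.d ^ 2 = y.d ^ 2 := by
    apply mul_left_cancel₀ hq
    linear_combination x.d ^ 2 * hn * (-1) + 3 * (x.b * y.d + y.b * x.d) * c2 * (-1) -
      5 * (x.c * y.d + y.c * x.d) * c3 * (-1)
  have alt : (y.b = x.b ∧ y.c = x.c ∧ y.d = x.d) ∨ (y.b = -x.b ∧ y.c = -x.c ∧ y.d = -x.d) := by
    rcases nonzero hx with hb | hc | hd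
    · rcases sq_eq_sq_iff_eq_or_eq_neg.1 sb with e | e
      · left
        refine ⟨e.symm, mul_left_cancel₀ hb ?_, mul_left_cancel₀ hb ?_⟩
        · rw [c1, ← e]
        · rw [c2, ← e]
      · have e' : y.b = -x.b := by linear_combination e
        right
        refine ⟨e', mul_left_cancel₀ hb ?_, mul_left_cancel₀ hb ?_⟩
        · rw [c1, e']; ring
        · rw [c2, e']; ring
    · rcases sq_eq_sq_iff_eq_or_eq_neg.1 sc with e | e
      · left
        refine ⟨mul_left_cancel₀ hc ?_, e.symm, mul_left_cancel₀ hc ?_⟩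
        · rw [mul_comm x.c y.b, ← c1, ← e, mul_comm]
        · rw [c3, ← e]
      · have e' : y.c = -x.c := by linear_combination e
        right
        refine ⟨mul_left_cancel₀ hc ?_, e', mul_left_cancel₀ hc ?_⟩
        · rw [mul_comm x.c y.b, ← c1, e']; ring
        · rw [c3, e']; ring
    · rcases sq_eq_sq_iff_eq_or_eq_neg.1 sd with e | e
      · left
        refine ⟨mul_left_cancel₀ hd ?_, mul_left_cancel₀ hd ?_, e.symm⟩
        · rw [mul_comm x.d y.b, ← c2, ← e, mul_comm]
        · rw [mul_comm x.d y.c, ← c3, ← e, mul_comm]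
      · have e' : y.d = -x.d := by linear_combination e
        right
        refine ⟨mul_left_cancel₀ hd ?_, mul_left_cancel₀ hd ?_, e'⟩
        · rw [mul_comm x.d y.b, ← c2, e']; ring
        · rw [mul_comm x.d y.c, ← c3, e']; ring
  rcases alt with ⟨e1, e2, e3⟩ | ⟨e1, e2, e3⟩
  · have : y = x := Q.ext ha e1 e2 e3
    rw [this] at hyg
    exact hyg
  · exfalso
    have ga : g.a ≠ 0 := by
      intro h0
      have h1 := g.cl
      rw [h0, map_zero] at h1
      revert h1
      decide
    have hb := congrArg Q.b hyg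
    have hc := congrArg Q.c hyg
    have hd := congrArg Q.d hyg
    rw [mul_b, mul_b, ha, e1, e2, e3] at hb
    rw [mul_c, mul_c, ha, e1, e2, e3] at hc
    rw [mul_d, mul_d, ha, e1, e2, e3] at hd
    rcases nonzero hx with h | h | h
    · apply h
      apply (mul_eq_zero.1 (?_ : (2 * g.a) * x.b = 0)).resolve_left (mul_ne_zero two_ne ga)
      linear_combination -hb
    · apply h
      apply (mul_eq_zero.1 (?_ : (2 * g.a) * x.c = 0)).resolve_left (mul_ne_zero two_ne ga)
      linear_combination -hc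
    · apply h
      apply (mul_eq_zero.1 (?_ : (2 * g.a) * x.d = 0)).resolve_left (mul_ne_zero two_ne ga)
      linear_combination -hd

theorem isCSA : IsCSA Q := by
  rintro M ⟨hM, hmax⟩ g hg x hx hgx
  by_contra hx1
  apply hg
  -- `M` is the centralizer of `x`
  have hC : Subgroup.centralizer {x} = M := by
    apply hmax
    · intro y hy z hz
      rw [Subgroup.mem_centralizer_singleton_iff] at hy hz
      exact isCA hx1 hy.symm hz.symm
    · intro y hy
      rw [Subgroup.mem_centralizer_singleton_iff]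
      exact hM y hy x hx
  rw [← hC, Subgroup.mem_centralizer_singleton_iff]
  exact (conj_comm hx1 (hM x hx _ hgx)).symm

/-! ### The group is not pro-p -/

/-- multiplication of the reductions modulo 5 -/
def mulR (v w : ZMod 5 × ZMod 5 × ZMod 5 × ZMod 5) : ZMod 5 × ZMod 5 × ZMod 5 × ZMod 5 :=
  (v.1 * w.1 - 3 * v.2.1 * w.2.1,
    v.1 * w.2.1 + v.2.1 * w.1,
    v.1 * w.2.2.1 + v.2.2.1 * w.1 - 3 * v.2.1 * w.2.2.2 + 3 * v.2.2.2 * w.2.1,
    v.1 * w.2.2.2 + v.2.2.2 * w.1 + v.2.1 * w.2.2.1 - v.2.2.1 * w.2.1)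

/-- reduction modulo 5 -/
def rho (x : Q) : ZMod 5 × ZMod 5 × ZMod 5 × ZMod 5 := (red x.a, red x.b, red x.c, red x.d)

theorem rho_mul (x y : Q) : rho (x * y) = mulR (rho x) (rho y) := by
  simp only [rho, mulR, mul_a, mul_b, mul_c, mul_d, map_add, map_sub, map_mul, map_ofNat,
    five_zero, fifteen_zero, zero_mul, add_zero, sub_zero]

theorem rho_one : rho 1 = (1, 0, 0, 0) := by
  simp only [rho, one_a, one_b, one_c, one_d, map_one, map_zero]

theorem mulR_one (v : ZMod 5 × ZMod 5 × ZMod 5 × ZMod 5) : mulR v (1, 0, 0, 0) = v := by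
  obtain ⟨a, b, c, d⟩ := v
  simp [mulR]

theorem isOpen_rho (P : ZMod 5 × ZMod 5 × ZMod 5 × ZMod 5 → Prop) : IsOpen {x : Q | P (rho x)} := by
  have h : {x : Q | P (rho x)} = ⋃ v : {v // P v},
      ((Q.a ⁻¹' {z | red z = v.1.1}) ∩ (Q.b ⁻¹' {z | red z = v.1.2.1}) ∩
        (Q.c ⁻¹' {z | red z = v.1.2.2.1}) ∩ (Q.d ⁻¹' {z | red z = v.1.2.2.2})) := by
    ext x
    simp only [Set.mem_ofPred_eq, Set.mem_iUnion, Set.mem_inter_iff, Set.mem_preimage]
    constructor
    · intro hx
      exact ⟨⟨rho x, hx⟩, ⟨⟨rfl, rfl⟩, rfl⟩, rfl⟩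
    · rintro ⟨⟨v, hv⟩, ⟨⟨h1, h2⟩, h3⟩, h4⟩
      have : rho x = v := by
        rw [rho, h1, h2, h3, h4]
      rwa [this]
  rw [h]
  refine isOpen_iUnion fun v => IsOpen.inter (IsOpen.inter (IsOpen.inter ?_ ?_) ?_) ?_
  · exact (isOpen_red _).preimage cont_a
  · exact (isOpen_red _).preimage cont_b
  · exact (isOpen_red _).preimage cont_c
  · exact (isOpen_red _).preimage cont_d

/-- the elements congruent to 1 modulo 5 -/
def U2 : Subgroup Q where
  carrier := {x | rho x = (1, 0, 0, 0)}
  one_mem' := rho_one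
  mul_mem' := by
    intro x y hx hy
    show rho (x * y) = _
    rw [rho_mul, hx, hy]
    decide
  inv_mem' := by
    intro x hx
    have h1 : rho x = (1, 0, 0, 0) := hx
    simp only [rho, Prod.mk.injEq] at h1
    show rho x⁻¹ = _
    simp only [rho, inv_a, inv_b, inv_c, inv_d, map_neg, h1, neg_zero]

instance : U2.Normal where
  conj_mem x hx g := by
    show rho (g * x * g⁻¹) = _
    rw [rho_mul, rho_mul, show rho x = (1, 0, 0, 0) from hx, mulR_one, ← rho_mul,
      mul_inv_cancel, rho_one]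

/-- the elements with real part congruent to 1 modulo 5 -/
def U1 : Subgroup Q where
  carrier := {x | red x.a = 1}
  one_mem' := map_one _
  mul_mem' := by
    intro x y hx hy
    have h1 := red_nm x
    have h2 := red_nm y
    rw [show red x.a = 1 from hx] at h1
    rw [show red y.a = 1 from hy] at h2
    have h3 : red (x * y).a = 1 - 3 * red x.b * red y.b := by
      simp only [mul_a, map_add, map_sub, map_mul, map_ofNat, five_zero, fifteen_zero]
      rw [show red x.a = 1 from hx, show red y.a = 1 from hy]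
      ring
    have h4 : ∀ u v : ZMod 5, 1 ^ 2 + 3 * u ^ 2 = 1 → 1 ^ 2 + 3 * v ^ 2 = 1 →
        1 - 3 * u * v = 1 := by decide
    exact h3.trans (h4 _ _ h1 h2)
  inv_mem' := fun hx => hx

instance : U1.Normal where
  conj_mem x hx g := by
    have ha : (g * x * g⁻¹).a = x.a := by
      simp only [mul_a, mul_b, mul_c, mul_d, inv_a, inv_b, inv_c, inv_d]
      linear_combination x.a * g.nm
    show red (g * x * g⁻¹).a = 1
    rw [ha]
    exact hx

theorem exists_half : ∃ h : ℤ_[5], 2 * h = 1 := by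
  have h1 : IsUnit (2 : ℤ_[5]) := by
    rw [PadicInt.isUnit_iff]
    have := (PadicInt.norm_natCast_eq_one_iff (p := 5) (n := 2)).2 (by norm_num)
    exact_mod_cast this
  exact h1.exists_right_inv

theorem red_half {h : ℤ_[5]} (hh : 2 * h = 1) : red h = 3 := by
  have h1 := congrArg red hh
  rw [map_mul, map_one, map_ofNat] at h1
  revert h1
  generalize red h = r
  revert r
  decide

theorem dvd_index {p q k : ℕ} (hp : p.Prime) (hq : q.Prime) {U : Subgroup Q} [hU : U.Normal]
    (hk : U.index = p ^ k) {x : Q} (hx : x ∉ U) (hxq : x ^ q ∈ U) : p = q := by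
  have hq' : Fact q.Prime := ⟨hq⟩
  have h1 : orderOf (x : Q ⧸ U) = q := by
    refine orderOf_eq_prime ?_ ?_
    · rw [← QuotientGroup.mk_pow]
      exact (QuotientGroup.eq_one_iff _).2 hxq
    · intro h
      exact hx ((QuotientGroup.eq_one_iff _).1 h)
  have h2 : q ∣ Nat.card (Q ⧸ U) := by
    rw [← h1]
    exact orderOf_dvd_natCard _
  rw [← Subgroup.index_eq_card, hk] at h2
  exact ((Nat.prime_dvd_prime_iff_eq hq hp).1 (hq.dvd_of_dvd_pow h2)).symm

/-- There is a non-abelian profinite CSA-group which is not pro-`p` for any prime `p`. -/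
theorem result : ∃ (G : Type) (_ : Group G) (_ : TopologicalSpace G), IsTopologicalGroup G ∧
    CompactSpace G ∧ T2Space G ∧ TotallyDisconnectedSpace G ∧ IsCSA G ∧
    (¬ ∀ x y : G, x * y = y * x) ∧ ∀ p : ℕ, p.Prime → ¬ IsProP p G := by
  obtain ⟨h, hh⟩ := exists_half
  have hr := red_half hh
  let w : Q := ⟨-h, h, 0, 0, by linear_combination (2 * h + 1) * hh, by
    rw [map_neg, hr]; decide⟩
  let y : Q := ⟨-3 * h, 0, -h, 0, by linear_combination (2 * h + 1) * hh, by
    rw [map_mul, map_neg, hr, map_ofNat]; decide⟩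
  refine ⟨Q, inferInstance, inferInstance, inferInstance, inferInstance, inferInstance,
    inferInstance, isCSA, ?_, ?_⟩
  · intro hc
    have h1 := congrArg Q.d (hc w y)
    rw [mul_d, mul_d] at h1
    have h2 : 2 * (h * h) = 0 := by linear_combination -h1
    have h3 : h * h = 0 := (mul_eq_zero.1 h2).resolve_left two_ne
    have h4 : h = 0 := mul_self_eq_zero.1 h3
    rw [h4, mul_zero] at hh
    exact zero_ne_one hh
  · intro p hp hpro
    obtain ⟨k1, hk1⟩ := hpro U1 inferInstance
      (isOpen_rho fun v => v.1 = 1)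
    obtain ⟨k2, hk2⟩ := hpro U2 inferInstance (isOpen_rho fun v => v = (1, 0, 0, 0))
    have e3 : p = 3 := by
      refine dvd_index hp Nat.prime_three hk1 (x := w) ?_ ?_
      · intro hw
        have : red (-h) = 1 := hw
        rw [map_neg, hr] at this
        revert this
        decide
      · have : w ^ 3 = 1 := by
          rw [pow_succ, pow_two]
          apply Q.ext
          · simp only [mul_a, mul_b, mul_c, mul_d, one_a, w]
            linear_combination (4 * h ^ 2 + 2 * h + 1) * hh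
          · simp only [mul_a, mul_b, mul_c, mul_d, one_b, w]; ring
          · simp only [mul_a, mul_b, mul_c, mul_d, one_c, w]; ring
          · simp only [mul_a, mul_b, mul_c, mul_d, one_d, w]; ring
        rw [this]
        exact U1.one_mem
    have e5 : p = 5 := by
      have hy : rho y = (1, 0, 2, 0) := by
        simp only [rho, y, map_mul, map_neg, hr, map_ofNat, map_zero]
        decide
      refine dvd_index hp (by norm_num) hk2 (x := y) ?_ ?_
      · intro hw
        have : rho y = (1, 0, 0, 0) := hw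
        rw [hy] at this
        revert this
        decide
      · show rho (y ^ 5) = _
        rw [pow_succ, pow_succ, pow_succ, pow_succ, pow_one, rho_mul, rho_mul, rho_mul, rho_mul,
          hy]
        decide
    omega

end

end Pool.Agent.Results.MP_b9311c_al.QuaternionExample
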